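import Pool.Agent.Lib.MP_b669e1_gt.Volume

set_option autoImplicit false

open MeasureTheory Module

open scoped RealInnerProductSpace ENNReal Pointwise ContDiff

namespace Pool.Agent.Results.MP_b669e1_gt.TubesAreIntegrable

open Pool.Agent.Lib.MP_b669e1_gt

/-! ## The definitions used in the statement -/

/-- The cutoff function `V_K^+(ξ, t) = Vol (K ∩ {x : ⟨x, ξ⟩ ≤ t})`. -/
noncomputable def cutoffPlus {n : ℕ} (K : Set (EuclideanSpace ℝ (Fin n)))
    (ξ : EuclideanSpace ℝ (Fin n)) (t : ℝ) : ℝ :=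
  (volume (K ∩ {x | ⟪x, ξ⟫ ≤ t})).toReal

/-- The cutoff function `V_K^-(ξ, t) = Vol (K ∩ {x : ⟨x, ξ⟩ ≥ t})`. -/
noncomputable def cutoffMinus {n : ℕ} (K : Set (EuclideanSpace ℝ (Fin n)))
    (ξ : EuclideanSpace ℝ (Fin n)) (t : ℝ) : ℝ :=
  (volume (K ∩ {x | t ≤ ⟪x, ξ⟫})).toReal

/-- The value `Φ(ξ, t, w)` of a polynomial in `n + 2` variables. -/
noncomputable def evalAt {n : ℕ} (Φ : MvPolynomial (Fin n ⊕ Fin 2) ℝ)
    (ξ : EuclideanSpace ℝ (Fin n)) (t w : ℝ) : ℝ :=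
  MvPolynomial.eval (Sum.elim (fun i => ξ i) ![t, w]) Φ

/-- `K` is algebraically integrable: there is a polynomial `Φ(ξ, t, w)`, not vanishing identically
for `ξ` in the unit sphere, such that `Φ(ξ, t, V_K^±(ξ, t)) = 0` for all `ξ` in the unit sphere
and all `t` such that the hyperplane `⟨x, ξ⟩ = t` meets the interior of `K`. -/
def AlgebraicallyIntegrable {n : ℕ} (K : Set (EuclideanSpace ℝ (Fin n))) : Prop :=
  ∃ Φ : MvPolynomial (Fin n ⊕ Fin 2) ℝ,
    (∃ (ξ : EuclideanSpace ℝ (Fin n)) (t w : ℝ), ‖ξ‖ = 1 ∧ evalAt Φ ξ t w ≠ 0) ∧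
    ∀ (ξ : EuclideanSpace ℝ (Fin n)) (t : ℝ), ‖ξ‖ = 1 → (∃ x ∈ interior K, ⟪x, ξ⟫ = t) →
      evalAt Φ ξ t (cutoffPlus K ξ t) = 0 ∧ evalAt Φ ξ t (cutoffMinus K ξ t) = 0

/-- `K` has a `C^∞` smooth boundary: near each boundary point `p` the body is given by `f ≤ 0` and
its boundary by `f = 0` for a smooth function `f` whose differential at `p` is non-zero. -/
def HasSmoothBoundary {n : ℕ} (K : Set (EuclideanSpace ℝ (Fin n))) : Prop :=
  ∀ p ∈ frontier K, ∃ f : EuclideanSpace ℝ (Fin n) → ℝ, ContDiff ℝ ∞ f ∧ fderiv ℝ f p ≠ 0 ∧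
    ∀ᶠ x in nhds p, (x ∈ K ↔ f x ≤ 0) ∧ (x ∈ frontier K ↔ f x = 0)

/-- `K` is an ellipsoid: the image of the closed unit ball under an invertible affine map. -/
def IsEllipsoid {n : ℕ} (K : Set (EuclideanSpace ℝ (Fin n))) : Prop :=
  ∃ A : EuclideanSpace ℝ (Fin n) ≃ᵃ[ℝ] EuclideanSpace ℝ (Fin n),
    K = A '' Metric.closedBall 0 1

/-- The body in `ℝ^(k + m)` bounded by
`(√(x_1^2 + ... + x_k^2) - 1)^2 + y_1^2 + ... + y_m^2 = ε^2`. -/
def tube (k m : ℕ) (ε : ℝ) : Set (EuclideanSpace ℝ (Fin (k + m))) :=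
  {z | (√(∑ i : Fin k, z (Fin.castAdd m i) ^ 2) - 1) ^ 2 +
    ∑ i : Fin m, z (Fin.natAdd k i) ^ 2 ≤ ε ^ 2}

/-! ## The isometry with the product -/

/-- The isometry `ℝ^(k + m) = ℝ^k × ℝ^m`. -/
noncomputable def iso (k m : ℕ) : EuclideanSpace ℝ (Fin (k + m)) ≃ₗᵢ[ℝ]
    WithLp 2 (EuclideanSpace ℝ (Fin k) × EuclideanSpace ℝ (Fin m)) :=
  (LinearIsometryEquiv.piLpCongrLeft 2 ℝ ℝ (finSumFinEquiv (m := k) (n := m)).symm).trans
    (PiLp.sumPiLpEquivProdLpPiLp 2 (fun _ => ℝ))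

theorem iso_fst (k m : ℕ) (z : EuclideanSpace ℝ (Fin (k + m))) (i : Fin k) :
    (iso k m z).fst i = z (Fin.castAdd m i) := rfl

theorem iso_snd (k m : ℕ) (z : EuclideanSpace ℝ (Fin (k + m))) (i : Fin m) :
    (iso k m z).snd i = z (Fin.natAdd k i) := rfl

/-- The square of the norm of the first component. -/
noncomputable def xsq (k m : ℕ) (z : EuclideanSpace ℝ (Fin (k + m))) : ℝ :=
  ∑ i : Fin k, z (Fin.castAdd m i) ^ 2

/-- The square of the norm of the second component. -/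
noncomputable def ysq (k m : ℕ) (z : EuclideanSpace ℝ (Fin (k + m))) : ℝ :=
  ∑ i : Fin m, z (Fin.natAdd k i) ^ 2

theorem xsq_eq (k m : ℕ) (z : EuclideanSpace ℝ (Fin (k + m))) :
    xsq k m z = ‖(iso k m z).fst‖ ^ 2 := by
  rw [EuclideanSpace.real_norm_sq_eq]
  rfl

theorem ysq_eq (k m : ℕ) (z : EuclideanSpace ℝ (Fin (k + m))) :
    ysq k m z = ‖(iso k m z).snd‖ ^ 2 := by
  rw [EuclideanSpace.real_norm_sq_eq]
  rfl

theorem xsq_nonneg (k m : ℕ) (z : EuclideanSpace ℝ (Fin (k + m))) : 0 ≤ xsq k m z := by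
  rw [xsq_eq]; positivity

theorem ysq_nonneg (k m : ℕ) (z : EuclideanSpace ℝ (Fin (k + m))) : 0 ≤ ysq k m z := by
  rw [ysq_eq]; positivity

theorem norm_sq_eq (k m : ℕ) (z : EuclideanSpace ℝ (Fin (k + m))) :
    ‖z‖ ^ 2 = xsq k m z + ysq k m z := by
  rw [xsq_eq, ysq_eq, ← WithLp.prod_norm_sq_eq_of_L2, LinearIsometryEquiv.norm_map]

theorem mem_tube_iff (k m : ℕ) (ε : ℝ) (z : EuclideanSpace ℝ (Fin (k + m))) :
    z ∈ tube k m ε ↔ (√(xsq k m z) - 1) ^ 2 + ysq k m z ≤ ε ^ 2 := Iff.rfl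

theorem mem_tube_iff' (k m : ℕ) (ε : ℝ) (z : EuclideanSpace ℝ (Fin (k + m))) :
    z ∈ tube k m ε ↔ (iso k m z).ofLp ∈
      tubeXY (EuclideanSpace ℝ (Fin k)) (EuclideanSpace ℝ (Fin m)) ε := by
  rw [mem_tube_iff, xsq_eq, ysq_eq, Real.sqrt_sq (norm_nonneg _)]
  rfl

theorem continuous_xsq (k m : ℕ) : Continuous (xsq k m) := by
  unfold xsq
  fun_prop

theorem continuous_ysq (k m : ℕ) : Continuous (ysq k m) := by
  unfold ysq
  fun_prop

/-! ## The cutoff functions of the tube -/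

theorem cutoffPlus_tube (j m : ℕ) (hm : Odd m) (ε : ℝ) (hε : 0 < ε) (hε1 : ε < 1)
    (ν : EuclideanSpace ℝ (Fin ((2 * j + 3) + (m + 1)))) (hν : ‖ν‖ = 1)
    (ha : 0 < xsq (2 * j + 3) (m + 1) ν) (t : ℝ) :
    cutoffPlus (tube (2 * j + 3) (m + 1) ε) ν t =
      cutF j m ε √(xsq (2 * j + 3) (m + 1) ν) t := by
  set a := √(xsq (2 * j + 3) (m + 1) ν) with hadef
  have ha' : 0 < a := Real.sqrt_pos.2 ha
  set ξ := (iso (2 * j + 3) (m + 1) ν).fst with hξdef
  set η := (iso (2 * j + 3) (m + 1) ν).snd with hηdef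
  have hξ : ‖ξ‖ = a := by
    rw [hadef, xsq_eq, Real.sqrt_sq (norm_nonneg _)]
  have hη : a ^ 2 + ‖η‖ ^ 2 = 1 := by
    rw [← hξ, hξdef, hηdef, ← xsq_eq, ← ysq_eq, ← norm_sq_eq, hν]
    norm_num
  rw [← volume_tube_eq_cutF j m hm (X := EuclideanSpace ℝ (Fin (2 * j + 3)))
    (Y := EuclideanSpace ℝ (Fin (m + 1))) (by simp) (by simp) ξ η a ha' hξ hη ε hε hε1 t]
  rw [cutoffPlus]
  congr 1
  have hmp : MeasurePreserving (fun z => (iso (2 * j + 3) (m + 1) z).ofLp) volume volume :=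
    (WithLp.volume_preserving_ofLp _ _).comp (iso (2 * j + 3) (m + 1)).measurePreserving
  have hmeas : MeasurableSet {z : EuclideanSpace ℝ (Fin (2 * j + 3)) ×
      EuclideanSpace ℝ (Fin (m + 1)) | z ∈ tubeXY _ _ ε ∧ ⟪z.1, ξ⟫ + ⟪z.2, η⟫ ≤ t} := by
    have hm1 : Measurable fun z : EuclideanSpace ℝ (Fin (2 * j + 3)) ×
      EuclideanSpace ℝ (Fin (m + 1)) => (‖z.1‖ - 1) ^ 2 + ‖z.2‖ ^ 2 := by fun_prop
    have hm2 : Measurable fun z : EuclideanSpace ℝ (Fin (2 * j + 3)) ×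
      EuclideanSpace ℝ (Fin (m + 1)) => ⟪z.1, ξ⟫ + ⟪z.2, η⟫ := by fun_prop
    exact MeasurableSet.inter (measurableSet_le hm1 measurable_const)
      (measurableSet_le hm2 measurable_const)
  rw [← hmp.measure_preimage hmeas.nullMeasurableSet]
  congr 1
  ext z
  show (z ∈ tube _ _ ε ∧ ⟪z, ν⟫ ≤ t) ↔
    ((iso (2 * j + 3) (m + 1) z).ofLp ∈ tubeXY _ _ ε ∧
      ⟪(iso (2 * j + 3) (m + 1) z).fst, ξ⟫ + ⟪(iso (2 * j + 3) (m + 1) z).snd, η⟫ ≤ t)
  rw [← mem_tube_iff', ← (iso (2 * j + 3) (m + 1)).inner_map_map z ν, WithLp.prod_inner_apply]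
  rfl

theorem cutoffMinus_eq {k m : ℕ} (ε : ℝ) (ν : EuclideanSpace ℝ (Fin (k + m))) (t : ℝ) :
    cutoffMinus (tube k m ε) ν t = cutoffPlus (tube k m ε) ν (-t) := by
  rw [cutoffMinus, cutoffPlus]
  congr 1
  rw [← Measure.measure_neg]
  congr 1
  ext z
  have h1 : xsq k m (-z) = xsq k m z := by simp [xsq]
  have h2 : ysq k m (-z) = ysq k m z := by simp [ysq]
  show (-z ∈ tube k m ε ∧ t ≤ ⟪-z, ν⟫) ↔ (z ∈ tube k m ε ∧ ⟪z, ν⟫ ≤ -t)
  rw [mem_tube_iff, mem_tube_iff, h1, h2, inner_neg_left, le_neg]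

theorem algebraicallyIntegrable_tube_aux (j m : ℕ) (hm : Odd m) (ε : ℝ) (hε : 0 < ε)
    (hε1 : ε < 1) : AlgebraicallyIntegrable (tube (2 * j + 3) (m + 1) ε) := by
  classical
  let V := Fin ((2 * j + 3) + (m + 1)) ⊕ Fin 2
  let s : MvPolynomial V ℝ := ∑ i : Fin (2 * j + 3), MvPolynomial.X (Sum.inl (Fin.castAdd _ i)) ^ 2
  obtain ⟨Φ, hΦ, hΦ2⟩ := FP.exists_poly s (Sum.inr 0 : V) (Sum.inr 1)
    (fun h => absurd (Sum.inr.inj h) (by decide))
    (fp_cutF j m ε hε)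
  have hs : ∀ (ν : EuclideanSpace ℝ (Fin ((2 * j + 3) + (m + 1)))) (t w : ℝ),
      MvPolynomial.eval (Sum.elim (fun i => ν i) ![t, w] : V → ℝ) s =
        xsq (2 * j + 3) (m + 1) ν := by
    intro ν t w
    simp [s, xsq]
  refine ⟨Φ, ?_, ?_⟩
  · let e : EuclideanSpace ℝ (Fin ((2 * j + 3) + (m + 1))) :=
      EuclideanSpace.single (Fin.castAdd (m + 1) ⟨0, by omega⟩) 1
    have hupd : ∀ w : ℝ, Function.update (Sum.elim (fun i => e i) ![0, 0] : V → ℝ) (Sum.inr 1) w =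
        Sum.elim (fun i => e i) ![0, w] := by
      intro w
      funext v
      rcases v with v | v
      · simp
      · fin_cases v <;> simp
    obtain ⟨w, hw⟩ := hΦ2 (Sum.elim (fun i => e i) ![0, 0]) (by
      intro w
      rw [hupd, hs]
      rw [xsq, Finset.sum_eq_single (⟨0, by omega⟩ : Fin (2 * j + 3))]
      · simp [e]
      · intro i _ hi
        have : (Fin.castAdd (m + 1) i) ≠ (Fin.castAdd (m + 1) ⟨0, by omega⟩) := by
          intro h
          exact hi (Fin.castAdd_injective _ _ h)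
        have h0 : e (Fin.castAdd (m + 1) i) = 0 := by
          simp only [e, PiLp.single_apply, if_neg this]
        rw [h0]
        norm_num
      · simp) (by simp)
    rw [hupd] at hw
    exact ⟨e, 0, w, by simp [e], hw⟩
  · intro ν t hν _
    have key : ∀ t' : ℝ, (t' = t ∨ t' = -t) →
        evalAt Φ ν t (cutoffPlus (tube (2 * j + 3) (m + 1) ε) ν t') = 0 := by
      intro t' ht'
      refine hΦ _ √(xsq (2 * j + 3) (m + 1) ν) (Real.sqrt_nonneg _) ?_ ?_
      · rw [hs, Real.sq_sqrt (xsq_nonneg _ _ _)]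
      · rcases (xsq_nonneg (2 * j + 3) (m + 1) ν).eq_or_lt with h0 | h0
        · right; right
          rw [← h0, Real.sqrt_zero]
        · simp only [Sum.elim_inr, Matrix.cons_val_zero, Matrix.cons_val_one]
          rw [cutoffPlus_tube j m hm ε hε hε1 ν hν h0]
          rcases ht' with rfl | rfl
          · left; rfl
          · right; left; rfl
    refine ⟨key t (Or.inl rfl), ?_⟩
    rw [cutoffMinus_eq]
    exact key (-t) (Or.inr rfl)

/-! ## The geometry of the tube -/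

/-- A polynomial that defines the tube. -/
noncomputable def defF (k m : ℕ) (ε : ℝ) (z : EuclideanSpace ℝ (Fin (k + m))) : ℝ :=
  (xsq k m z + ysq k m z + 1 - ε ^ 2) ^ 2 - 4 * xsq k m z

theorem contDiff_defF (k m : ℕ) (ε : ℝ) : ContDiff ℝ ∞ (defF k m ε) := by
  unfold defF xsq ysq
  fun_prop

theorem defF_eq (k m : ℕ) (ε : ℝ) (z : EuclideanSpace ℝ (Fin (k + m))) :
    defF k m ε z = ((√(xsq k m z) - 1) ^ 2 + ysq k m z - ε ^ 2) *
      ((√(xsq k m z) + 1) ^ 2 + ysq k m z - ε ^ 2) := by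
  have h := Real.sq_sqrt (xsq_nonneg k m z)
  rw [defF]
  have h1 : xsq k m z + ysq k m z + 1 - ε ^ 2 =
      √(xsq k m z) ^ 2 + ysq k m z + 1 - ε ^ 2 := by rw [h]
  rw [h1]
  nth_rewrite 2 [← h]
  ring

theorem factor_pos (k m : ℕ) (ε : ℝ) (hε : 0 < ε) (hε1 : ε < 1)
    (z : EuclideanSpace ℝ (Fin (k + m))) :
    0 < (√(xsq k m z) + 1) ^ 2 + ysq k m z - ε ^ 2 := by
  have h1 := Real.sqrt_nonneg (xsq k m z)
  have h2 := ysq_nonneg k m z
  nlinarith

theorem mem_tube_iff_defF (k m : ℕ) (ε : ℝ) (hε : 0 < ε) (hε1 : ε < 1)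
    (z : EuclideanSpace ℝ (Fin (k + m))) : z ∈ tube k m ε ↔ defF k m ε z ≤ 0 := by
  rw [mem_tube_iff, defF_eq]
  have hpos := factor_pos k m ε hε hε1 z
  constructor
  · intro h
    exact mul_nonpos_of_nonpos_of_nonneg (by linarith) hpos.le
  · intro h
    by_contra hcon
    have h1 : 0 < (√(xsq k m z) - 1) ^ 2 + ysq k m z - ε ^ 2 := by linarith
    exact absurd h (not_le.2 (mul_pos h1 hpos))

theorem defF_eq_zero_iff (k m : ℕ) (ε : ℝ) (hε : 0 < ε) (hε1 : ε < 1)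
    (z : EuclideanSpace ℝ (Fin (k + m))) :
    defF k m ε z = 0 ↔ (√(xsq k m z) - 1) ^ 2 + ysq k m z = ε ^ 2 := by
  rw [defF_eq, mul_eq_zero, or_iff_left (factor_pos k m ε hε hε1 z).ne', sub_eq_zero]

/-- The direction in which `defF` increases. -/
noncomputable def dir (k m : ℕ) (z : EuclideanSpace ℝ (Fin (k + m))) :
    EuclideanSpace ℝ (Fin (k + m)) :=
  WithLp.toLp 2 (Fin.addCases
    (fun i : Fin k => (√(xsq k m z) - 1) / √(xsq k m z) * z (Fin.castAdd m i))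
    (fun i : Fin m => z (Fin.natAdd k i)))

theorem xsq_add_dir (k m : ℕ) (z : EuclideanSpace ℝ (Fin (k + m))) (s : ℝ) :
    xsq k m (z + s • dir k m z) =
      (1 + s * ((√(xsq k m z) - 1) / √(xsq k m z))) ^ 2 * xsq k m z := by
  rw [xsq, xsq, Finset.mul_sum]
  refine Finset.sum_congr rfl fun i _ => ?_
  have : (dir k m z) (Fin.castAdd m i) =
      (√(xsq k m z) - 1) / √(xsq k m z) * z (Fin.castAdd m i) := by
    simp [dir]
  rw [PiLp.add_apply, PiLp.smul_apply, this, smul_eq_mul, xsq]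
  ring

theorem ysq_add_dir (k m : ℕ) (z : EuclideanSpace ℝ (Fin (k + m))) (s : ℝ) :
    ysq k m (z + s • dir k m z) = (1 + s) ^ 2 * ysq k m z := by
  rw [ysq, ysq, Finset.mul_sum]
  refine Finset.sum_congr rfl fun i _ => ?_
  have : (dir k m z) (Fin.natAdd k i) = z (Fin.natAdd k i) := by
    simp [dir]
  rw [PiLp.add_apply, PiLp.smul_apply, this, smul_eq_mul]
  ring

theorem hasDerivAt_defF_dir (k m : ℕ) (ε : ℝ) (hε : 0 < ε) (hε1 : ε < 1)
    (z : EuclideanSpace ℝ (Fin (k + m))) (hz : defF k m ε z = 0) :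
    ∃ D : ℝ, 0 < D ∧ HasDerivAt (fun s : ℝ => defF k m ε (z + s • dir k m z)) D 0 := by
  rw [defF_eq_zero_iff k m ε hε hε1] at hz
  set r := √(xsq k m z) with hr
  have hr2 : xsq k m z = r ^ 2 := (Real.sq_sqrt (xsq_nonneg k m z)).symm
  have hr0 : 0 ≤ r := Real.sqrt_nonneg _
  have hy := ysq_nonneg k m z
  have hrpos : 0 < r := by
    rcases hr0.eq_or_lt with h | h
    · exfalso
      rw [← h] at hz
      nlinarith
    · exact h
  refine ⟨8 * r * ε ^ 2, by positivity, ?_⟩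
  have h1 : (fun s : ℝ => defF k m ε (z + s • dir k m z)) = fun s : ℝ =>
      ((1 + s * ((r - 1) / r)) ^ 2 * r ^ 2 + (1 + s) ^ 2 * ysq k m z + 1 - ε ^ 2) ^ 2 -
        4 * ((1 + s * ((r - 1) / r)) ^ 2 * r ^ 2) := by
    funext s
    rw [defF, xsq_add_dir, ysq_add_dir, ← hr, hr2]
  rw [h1]
  have h2 : HasDerivAt (fun s : ℝ => (1 + s * ((r - 1) / r)) ^ 2 * r ^ 2)
      (2 * ((r - 1) / r) * r ^ 2) 0 := by
    have h := ((((hasDerivAt_id' (0 : ℝ)).mul_const ((r - 1) / r)).const_add 1).pow 2).mul_const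
      (r ^ 2)
    refine h.congr_deriv ?_
    norm_num
  have h3 : HasDerivAt (fun s : ℝ => (1 + s) ^ 2 * ysq k m z) (2 * ysq k m z) 0 := by
    have h := (((hasDerivAt_id' (0 : ℝ)).const_add 1).pow 2).mul_const (ysq k m z)
    refine h.congr_deriv ?_
    norm_num
  have h4 := ((((h2.add h3).add_const 1).sub_const (ε ^ 2)).pow 2).sub (h2.const_mul 4)
  refine h4.congr_deriv ?_
  have h5 : (r - 1) / r * r ^ 2 = (r - 1) * r := by field_simp
  have h6 : ysq k m z = ε ^ 2 - (r - 1) ^ 2 := by linarith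
  rw [mul_assoc 2 ((r - 1) / r), h5]
  norm_num
  rw [h6]
  ring

theorem fderiv_defF_ne_zero (k m : ℕ) (ε : ℝ) (hε : 0 < ε) (hε1 : ε < 1)
    (z : EuclideanSpace ℝ (Fin (k + m))) (hz : defF k m ε z = 0) :
    fderiv ℝ (defF k m ε) z ≠ 0 := by
  obtain ⟨D, hD, hderiv⟩ := hasDerivAt_defF_dir k m ε hε hε1 z hz
  intro h0
  have hd : DifferentiableAt ℝ (defF k m ε) (z + (0 : ℝ) • dir k m z) :=
    (contDiff_defF k m ε).differentiable (by simp) _
  have h1 : HasDerivAt (fun s : ℝ => z + s • dir k m z) (dir k m z) 0 := by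
    have := ((hasDerivAt_id (0 : ℝ)).smul_const (dir k m z)).const_add z
    simpa using this
  have h2 := hd.hasFDerivAt.comp_hasDerivAt (0 : ℝ) h1
  have h3 := h2.unique hderiv
  rw [zero_smul, add_zero, h0] at h3
  simp at h3
  exact hD.ne h3

theorem isClosed_tube (k m : ℕ) (ε : ℝ) : IsClosed (tube k m ε) := by
  have h1 : Continuous fun z : EuclideanSpace ℝ (Fin (k + m)) =>
      (√(xsq k m z) - 1) ^ 2 + ysq k m z := by
    have := continuous_xsq k m
    have := continuous_ysq k m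
    fun_prop
  exact isClosed_le h1 continuous_const

theorem frontier_tube (k m : ℕ) (ε : ℝ) (hε : 0 < ε) (hε1 : ε < 1)
    (z : EuclideanSpace ℝ (Fin (k + m))) :
    z ∈ frontier (tube k m ε) ↔ defF k m ε z = 0 := by
  rw [(isClosed_tube k m ε).frontier_eq]
  constructor
  · rintro ⟨h1, h2⟩
    rw [mem_tube_iff_defF k m ε hε hε1] at h1
    rcases h1.eq_or_lt with h | h
    · exact h
    · exfalso
      apply h2
      rw [mem_interior]
      refine ⟨{z | defF k m ε z < 0}, ?_, ?_, h⟩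
      · intro w hw
        rw [mem_tube_iff_defF k m ε hε hε1]
        exact le_of_lt hw
      · exact isOpen_lt (contDiff_defF k m ε).continuous continuous_const
  · intro h
    refine ⟨(mem_tube_iff_defF k m ε hε hε1 z).2 h.le, ?_⟩
    intro hint
    obtain ⟨D, hD, hderiv⟩ := hasDerivAt_defF_dir k m ε hε hε1 z h
    have hcont : Filter.Tendsto (fun s : ℝ => z + s • dir k m z) (nhds 0) (nhds z) := by
      have : Continuous fun s : ℝ => z + s • dir k m z := by fun_prop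
      have h0 := this.tendsto 0
      simpa using h0
    have hev : ∀ᶠ s in nhds (0 : ℝ), z + s • dir k m z ∈ tube k m ε :=
      hcont (mem_interior_iff_mem_nhds.1 hint)
    have hmax : IsLocalMax (fun s : ℝ => defF k m ε (z + s • dir k m z)) 0 := by
      filter_upwards [hev] with s hs
      rw [zero_smul, add_zero, h]
      exact (mem_tube_iff_defF k m ε hε hε1 _).1 hs
    exact hD.ne' (hmax.hasDerivAt_eq_zero hderiv)

theorem hasSmoothBoundary_tube (k m : ℕ) (ε : ℝ) (hε : 0 < ε) (hε1 : ε < 1) :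
    HasSmoothBoundary (tube k m ε) := by
  intro p hp
  refine ⟨defF k m ε, contDiff_defF k m ε,
    fderiv_defF_ne_zero k m ε hε hε1 p ((frontier_tube k m ε hε hε1 p).1 hp),
    Filter.Eventually.of_forall fun x => ⟨mem_tube_iff_defF k m ε hε hε1 x,
      frontier_tube k m ε hε hε1 x⟩⟩

theorem isCompact_tube (k m : ℕ) (ε : ℝ) (hε : 0 < ε) (hε1 : ε < 1) :
    IsCompact (tube k m ε) := by
  refine Metric.isCompact_of_isClosed_isBounded (isClosed_tube k m ε) ?_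
  refine (Metric.isBounded_closedBall (x := 0) (r := 3)).subset fun z hz => ?_
  rw [mem_closedBall_zero_iff]
  rw [mem_tube_iff] at hz
  have h1 := ysq_nonneg k m z
  have h2 : (√(xsq k m z) - 1) ^ 2 ≤ 1 ^ 2 := by nlinarith
  have h3 := (abs_le.1 (abs_le_of_sq_le_sq h2 (by norm_num))).2
  have h4 := Real.sq_sqrt (xsq_nonneg k m z)
  have h5 := Real.sqrt_nonneg (xsq k m z)
  have h6 : ‖z‖ ^ 2 ≤ 3 ^ 2 := by
    rw [norm_sq_eq]
    nlinarith [sq_nonneg (√(xsq k m z) - 1)]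
  exact le_of_sq_le_sq h6 (by norm_num)

/-- The first basis vector. -/
noncomputable def e0 (k m : ℕ) : EuclideanSpace ℝ (Fin ((k + 1) + m)) :=
  EuclideanSpace.single (Fin.castAdd m 0) 1

theorem xsq_smul_e0 (k m : ℕ) (c : ℝ) : xsq (k + 1) m (c • e0 k m) = c ^ 2 := by
  rw [xsq, Finset.sum_eq_single 0]
  · simp [e0]
  · intro i _ hi
    have h1 : Fin.castAdd m i ≠ Fin.castAdd m 0 := fun h => hi (Fin.castAdd_injective _ _ h)
    have h0 : (e0 k m) (Fin.castAdd m i) = 0 := by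
      simp only [e0, PiLp.single_apply, if_neg h1]
    rw [PiLp.smul_apply, h0]
    simp
  · simp

theorem ysq_smul_e0 (k m : ℕ) (c : ℝ) : ysq (k + 1) m (c • e0 k m) = 0 := by
  rw [ysq]
  refine Finset.sum_eq_zero fun i _ => ?_
  have h1 : Fin.natAdd (k + 1) i ≠ Fin.castAdd m 0 := by
    intro h
    have := congrArg Fin.val h
    simp at this
  have h0 : (e0 k m) (Fin.natAdd (k + 1) i) = 0 := by
    simp only [e0, PiLp.single_apply, if_neg h1]
  rw [PiLp.smul_apply, h0]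
  simp

theorem interior_tube_nonempty (k m : ℕ) (ε : ℝ) (hε : 0 < ε) (hε1 : ε < 1) :
    (interior (tube (k + 1) m ε)).Nonempty := by
  refine ⟨(1 : ℝ) • e0 k m, ?_⟩
  rw [mem_interior]
  refine ⟨{z | defF (k + 1) m ε z < 0}, ?_, ?_, ?_⟩
  · intro w hw
    rw [mem_tube_iff_defF (k + 1) m ε hε hε1]
    exact le_of_lt hw
  · exact isOpen_lt (contDiff_defF (k + 1) m ε).continuous continuous_const
  · show defF (k + 1) m ε ((1 : ℝ) • e0 k m) < 0
    rw [defF, xsq_smul_e0, ysq_smul_e0]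
    have h1 : ε ^ 2 < 1 := by nlinarith
    have h2 : 0 < ε ^ 2 := by positivity
    nlinarith

theorem not_isEllipsoid_tube (k m : ℕ) (ε : ℝ) (hε : 0 < ε) (hε1 : ε < 1) :
    ¬ IsEllipsoid (tube (k + 1) m ε) := by
  rintro ⟨A, hA⟩
  have hconv : Convex ℝ (tube (k + 1) m ε) := by
    rw [hA]
    exact (convex_closedBall _ _).affine_image A.toAffineMap
  have h1 : (1 : ℝ) • e0 k m ∈ tube (k + 1) m ε := by
    rw [mem_tube_iff, xsq_smul_e0, ysq_smul_e0]
    norm_num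
    positivity
  have h2 : (-1 : ℝ) • e0 k m ∈ tube (k + 1) m ε := by
    rw [mem_tube_iff, xsq_smul_e0, ysq_smul_e0]
    norm_num
    positivity
  have h3 := hconv h1 h2 (a := 1 / 2) (b := 1 / 2) (by norm_num) (by norm_num) (by norm_num)
  have h4 : (1 / 2 : ℝ) • (1 : ℝ) • e0 k m + (1 / 2 : ℝ) • (-1 : ℝ) • e0 k m =
      (0 : ℝ) • e0 k m := by
    rw [smul_smul, smul_smul, ← add_smul]
    norm_num
  rw [h4, mem_tube_iff, xsq_smul_e0, ysq_smul_e0] at h3
  norm_num at h3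
  rw [abs_of_pos hε] at h3
  linarith

/-- The parametrization of the boundary by a product of two spheres. -/
noncomputable def param (k m : ℕ) (ε : ℝ)
    (q : EuclideanSpace ℝ (Fin k) × WithLp 2 (ℝ × EuclideanSpace ℝ (Fin m))) :
    EuclideanSpace ℝ (Fin (k + m)) :=
  (iso k m).symm (WithLp.toLp 2 ((1 + ε * q.2.fst) • q.1, ε • q.2.snd))

theorem continuous_param (k m : ℕ) (ε : ℝ) : Continuous (param k m ε) := by
  unfold param
  refine (iso k m).symm.continuous.comp ?_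
  refine (WithLp.prod_continuous_toLp 2 _ _).comp ?_
  fun_prop

theorem frontier_eq_image (k m : ℕ) (ε : ℝ) (hε : 0 < ε) (hε1 : ε < 1) :
    frontier (tube k m ε) = param k m ε '' (Metric.sphere 0 1 ×ˢ Metric.sphere 0 1) := by
  ext z
  rw [frontier_tube k m ε hε hε1, defF_eq_zero_iff k m ε hε hε1, xsq_eq, ysq_eq,
    Real.sqrt_sq (norm_nonneg _)]
  constructor
  · intro h
    set x := (iso k m z).fst with hx
    set y := (iso k m z).snd with hy
    have hxpos : 0 < ‖x‖ := by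
      rcases (norm_nonneg x).eq_or_lt with h0 | h0
      · exfalso
        rw [← h0] at h
        nlinarith [sq_nonneg ‖y‖]
      · exact h0
    refine ⟨(‖x‖⁻¹ • x, WithLp.toLp 2 ((‖x‖ - 1) / ε, ε⁻¹ • y)), ⟨?_, ?_⟩, ?_⟩
    · rw [mem_sphere_zero_iff_norm]
      show ‖‖x‖⁻¹ • x‖ = 1
      rw [norm_smul, norm_inv, norm_norm, inv_mul_cancel₀ hxpos.ne']
    · rw [mem_sphere_zero_iff_norm, ← sq_eq_sq₀ (norm_nonneg _) (by norm_num),
        WithLp.prod_norm_sq_eq_of_L2]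
      show ‖(‖x‖ - 1) / ε‖ ^ 2 + ‖ε⁻¹ • y‖ ^ 2 = 1 ^ 2
      rw [Real.norm_eq_abs, sq_abs, norm_smul, norm_inv, Real.norm_eq_abs, abs_of_pos hε, mul_pow,
        div_pow, inv_pow]
      field_simp
      linarith
    · show (iso k m).symm (WithLp.toLp 2 ((1 + ε * ((‖x‖ - 1) / ε)) • ‖x‖⁻¹ • x,
        ε • ε⁻¹ • y)) = z
      rw [LinearIsometryEquiv.symm_apply_eq, smul_smul, smul_smul, mul_inv_cancel₀ hε.ne', one_smul,
        mul_div_cancel₀ _ hε.ne']
      rw [show (1 + (‖x‖ - 1)) * ‖x‖⁻¹ = 1 by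
        rw [add_sub_cancel, mul_inv_cancel₀ hxpos.ne'], one_smul]
      rfl
  · rintro ⟨q, ⟨hq1, hq2⟩, rfl⟩
    rw [mem_sphere_zero_iff_norm] at hq1 hq2
    have h1 : (iso k m (param k m ε q)).fst = (1 + ε * q.2.fst) • q.1 := by
      rw [param, LinearIsometryEquiv.apply_symm_apply]
      rfl
    have h2 : (iso k m (param k m ε q)).snd = ε • q.2.snd := by
      rw [param, LinearIsometryEquiv.apply_symm_apply]
      rfl
    have h3 := WithLp.prod_norm_sq_eq_of_L2 q.2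
    rw [hq2, Real.norm_eq_abs, sq_abs] at h3
    have h4 : |q.2.fst| ≤ 1 := by
      have : q.2.fst ^ 2 ≤ 1 ^ 2 := by nlinarith [sq_nonneg ‖q.2.snd‖]
      exact abs_le_of_sq_le_sq this (by norm_num)
    have h5 : 0 < 1 + ε * q.2.fst := by
      have := (abs_le.1 h4).1
      nlinarith
    rw [h1, h2, norm_smul, norm_smul, hq1, mul_one, Real.norm_eq_abs, Real.norm_eq_abs,
      abs_of_pos h5, abs_of_pos hε]
    have h6 : ‖q.2.snd‖ ^ 2 = 1 - q.2.fst ^ 2 := by linarith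
    rw [mul_pow, h6]
    ring

theorem isConnected_frontier_tube (k m : ℕ) (hk : 2 ≤ k) (hm : 1 ≤ m) (ε : ℝ) (hε : 0 < ε)
    (hε1 : ε < 1) : IsConnected (frontier (tube k m ε)) := by
  rw [frontier_eq_image k m ε hε hε1]
  refine IsConnected.image ?_ _ (continuous_param k m ε).continuousOn
  refine IsConnected.prod ?_ ?_
  · refine isConnected_sphere (one_lt_rank_of_one_lt_finrank ?_) _ zero_le_one
    rw [finrank_euclideanSpace_fin]
    omega
  · refine isConnected_sphere (one_lt_rank_of_one_lt_finrank ?_) _ zero_le_one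
    rw [(WithLp.linearEquiv 2 ℝ (ℝ × EuclideanSpace ℝ (Fin m))).finrank_eq, finrank_prod,
      finrank_euclideanSpace_fin, finrank_self]
    omega

/-! ## The main result -/

/-- **Main result.** For odd `k ≥ 3`, even `m ≥ 2` and `0 < ε < 1` the body in `ℝ^(k + m)` (an
odd-dimensional space) bounded by `(√(x_1^2 + ... + x_k^2) - 1)^2 + y_1^2 + ... + y_m^2 = ε^2` is
algebraically integrable. It is compact with non-empty interior, it has a connected `C^∞` smooth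
boundary, and it is not an ellipsoid. -/
theorem result (k m : ℕ) (hk : Odd k) (hk3 : 3 ≤ k) (hm : Even m) (hm2 : 2 ≤ m) (ε : ℝ)
    (hε : 0 < ε) (hε1 : ε < 1) :
    Odd (k + m) ∧ IsCompact (tube k m ε) ∧ (interior (tube k m ε)).Nonempty ∧
      HasSmoothBoundary (tube k m ε) ∧ IsConnected (frontier (tube k m ε)) ∧
      AlgebraicallyIntegrable (tube k m ε) ∧ ¬ IsEllipsoid (tube k m ε) := by
  refine ⟨hk.add_even hm, isCompact_tube k m ε hε hε1, ?_, hasSmoothBoundary_tube k m ε hε hε1,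
    isConnected_frontier_tube k m (by omega) (by omega) ε hε hε1, ?_, ?_⟩
  · obtain ⟨k', rfl⟩ : ∃ k', k = k' + 1 := ⟨k - 1, by omega⟩
    exact interior_tube_nonempty k' m ε hε hε1
  · obtain ⟨j, rfl⟩ : ∃ j, k = 2 * j + 3 := by
      obtain ⟨l, hl⟩ := hk
      exact ⟨l - 1, by omega⟩
    obtain ⟨m', rfl⟩ : ∃ m', m = m' + 1 := ⟨m - 1, by omega⟩
    have hm' : Odd m' := by
      rcases Nat.even_or_odd m' with h | h
      · exact absurd (h.add_odd odd_one) (Nat.not_odd_iff_even.2 hm)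
      · exact h
    exact algebraicallyIntegrable_tube_aux j m' hm' ε hε hε1
  · obtain ⟨k', rfl⟩ : ∃ k', k = k' + 1 := ⟨k - 1, by omega⟩
    exact not_isEllipsoid_tube k' m ε hε hε1

end Pool.Agent.Results.MP_b669e1_gt.TubesAreIntegrable
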